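import Pool.Agent.Work.MP_3b70de_al.Corner

namespace Pool.Agent.Work.MP_3b70de_al.Parked.NoQuotientMap

open Pool.Agent.Work.MP_3b70de_al

/-- There are finite graphs `G, H` with a six-dimensional quantum isomorphism such that no unital
C*-algebra in which the isomorphism game relations hold (in particular `A(G,H)`) has a unital
*-homomorphism into the quotient of `C*(Γ(M, b))` by `J = -1`, for any binary linear system
`M x = b` that has a finite-dimensional quantum solution. -/
theorem result :
    ∃ (V W : Type) (_ : Fintype V) (_ : Fintype W) (G : SimpleGraph V) (H : SimpleGraph W),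
      (∃ q : V → W → (EuclideanSpace ℂ (Fin 6) →L[ℂ] EuclideanSpace ℂ (Fin 6)), IsoRel G H q) ∧
      ∀ (A : Type) [CStarAlgebra A] (p : V → W → A), IsoRel G H p →
        ∀ (m n : ℕ) (M : Matrix (Fin m) (Fin n) (ZMod 2)) (b : Fin m → ZMod 2)
          (C : Type) [CStarAlgebra C] (x : Fin n → C), IsSolAlg M b x →
          (∃ (d : ℕ) (y : Fin n → Matrix (Fin (d + 1)) (Fin (d + 1)) ℂ), IsSol M b y) →
          IsEmpty (A →⋆ₐ[ℂ] C) :=
  ⟨_, _, inferInstance, inferInstance, _, _, ⟨_, six_rel⟩,
    fun A _ p hp _ _ _ _ _ _ _ hx ⟨_, _, hy⟩ => no_hom_corner A p hp hx hy⟩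

end Pool.Agent.Work.MP_3b70de_al.Parked.NoQuotientMap
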